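import Pool.Agent.W187.WP.Stmts

/-!
# WP-AR: the archimedean terms of the explicit formula as an integral over `[0, L]` (helper100)
-/

open MeasureTheory Set Filter Topology

namespace Pool.Agent.W100.WP

open Pool.Agent.W187.WP

theorem int_v_exp {a : ℝ} (ha : 0 < a) :
    IntegrableOn (fun v : ℝ => v * Real.exp (-(a * v))) (Ioi 0) ∧
      ∫ v in Ioi (0 : ℝ), v * Real.exp (-(a * v)) = 1 / a ^ 2 := by
  have h := Real.integral_rpow_mul_exp_neg_mul_Ioi (a := 2) (r := a) (by norm_num) ha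
  rw [Real.Gamma_two, mul_one] at h
  have h1 : ∫ v in Ioi (0 : ℝ), v * Real.exp (-(a * v)) = 1 / a ^ 2 := by
    have e : ((1 : ℝ) / a) ^ (2 : ℝ) = 1 / a ^ 2 := by
      rw [show (2 : ℝ) = ((2 : ℕ) : ℝ) by norm_num, Real.rpow_natCast]
      rw [div_pow, one_pow]
    rw [← e, ← h]
    refine setIntegral_congr_fun measurableSet_Ioi fun v _ => ?_
    norm_num
  refine ⟨?_, h1⟩
  apply Integrable.of_integral_ne_zero
  rw [h1]
  positivity

theorem int_exp {a : ℝ} (ha : 0 < a) :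
    IntegrableOn (fun v : ℝ => Real.exp (-(a * v))) (Ioi 0) ∧
      ∫ v in Ioi (0 : ℝ), Real.exp (-(a * v)) = 1 / a := by
  have h1 := integrableOn_exp_mul_Ioi (a := -a) (by linarith) 0
  have h2 := integral_exp_mul_Ioi (a := -a) (by linarith) 0
  have e : ∀ v : ℝ, -a * v = -(a * v) := fun v => by ring
  simp only [e] at h1 h2
  refine ⟨h1, ?_⟩
  rw [h2]
  simp

theorem exp_sub_le {x : ℝ} (hx : 0 < x) : Real.exp x - 1 - x ≤ x ^ 2 * Real.exp x := by
  rcases le_or_gt x 1 with h | h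
  · have h1 := Real.abs_exp_sub_one_sub_id_le (x := x) (by rw [abs_of_pos hx]; exact h)
    have h2 := (abs_le.1 h1).2
    have h3 : 1 ≤ Real.exp x := Real.one_le_exp hx.le
    nlinarith [sq_nonneg x]
  · have h3 : 0 < Real.exp x := Real.exp_pos x
    have h4 : 1 * Real.exp x ≤ x ^ 2 * Real.exp x :=
      mul_le_mul_of_nonneg_right (by nlinarith) h3.le
    linarith

/-- `2/(e^(2v)-1)` -/
noncomputable def kk (v : ℝ) : ℝ := 2 / (Real.exp (2 * v) - 1)

theorem den_pos {v : ℝ} (hv : 0 < v) : 0 < Real.exp (2 * v) - 1 := by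
  have := Real.add_one_lt_exp (x := 2 * v) (by positivity)
  linarith

theorem kk_pos {v : ℝ} (hv : 0 < v) : 0 < kk v := by
  unfold kk
  have := den_pos hv
  positivity

theorem kk_le {v : ℝ} (hv : 0 < v) : kk v ≤ 1 / v := by
  unfold kk
  have h := Real.add_one_lt_exp (x := 2 * v) (by positivity)
  have := den_pos hv
  rw [div_le_div_iff₀ this hv]
  linarith

theorem kk_sub {v L : ℝ} (hv : 0 < v) (hL : v ≤ L) : |kk v - 1 / v| ≤ 2 * Real.exp (2 * L) := by
  have h0 := den_pos hv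
  have h1 := exp_sub_le (x := 2 * v) (by positivity)
  have h2 : Real.exp (2 * v) ≤ Real.exp (2 * L) := Real.exp_le_exp.2 (by linarith)
  have h3 := Real.add_one_lt_exp (x := 2 * v) (by positivity)
  rw [abs_le]
  constructor
  · have e : kk v - 1 / v = -((Real.exp (2 * v) - 1 - 2 * v) / (v * (Real.exp (2 * v) - 1))) := by
      unfold kk
      field_simp
      ring
    rw [e, neg_le_neg_iff, div_le_iff₀ (by positivity)]
    have h4 : (2 * v) ^ 2 * Real.exp (2 * v) ≤ (2 * v) ^ 2 * Real.exp (2 * L) :=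
      mul_le_mul_of_nonneg_left h2 (by positivity)
    have h5 : 2 * Real.exp (2 * L) * (v * (2 * v)) ≤
        2 * Real.exp (2 * L) * (v * (Real.exp (2 * v) - 1)) := by
      apply mul_le_mul_of_nonneg_left _ (by positivity)
      apply mul_le_mul_of_nonneg_left _ hv.le
      linarith
    nlinarith
  · have := kk_le hv
    have := Real.exp_pos (2 * L)
    linarith

/-- the series of exponentials -/
theorem hasSum_exp {v : ℝ} (hv : 0 < v) :
    HasSum (fun n : ℕ => 2 * Real.exp (-(2 * ((n : ℝ) + 1) * v))) (kk v) := by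
  have h1 : Real.exp (-(2 * v)) < 1 := by
    rw [Real.exp_lt_one_iff]
    linarith
  have h2 := (hasSum_geometric_of_lt_one (Real.exp_pos (-(2 * v))).le h1).mul_left
    (2 * Real.exp (-(2 * v)))
  have e1 : ∀ n : ℕ, 2 * Real.exp (-(2 * v)) * Real.exp (-(2 * v)) ^ n =
      2 * Real.exp (-(2 * ((n : ℝ) + 1) * v)) := by
    intro n
    rw [← Real.exp_nat_mul, mul_assoc, ← Real.exp_add]
    congr 2
    ring
  have e2 : 2 * Real.exp (-(2 * v)) * (1 - Real.exp (-(2 * v)))⁻¹ = kk v := by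
    unfold kk
    have h3 : Real.exp (2 * v) ≠ 0 := (Real.exp_pos _).ne'
    have h4 := den_pos hv
    have h5 : 1 - Real.exp (-(2 * v)) ≠ 0 := by linarith
    have h6 : Real.exp (2 * v) - 1 ≠ 0 := h4.ne'
    rw [Real.exp_neg] at h5 ⊢
    field_simp
  simp only [e1] at h2
  rwa [e2] at h2

theorem logden_pos {v : ℝ} (hv : 0 < v) : 0 < 1 - Real.exp (-(2 * v)) := by
  have h1 : Real.exp (-(2 * v)) < 1 := by
    rw [Real.exp_lt_one_iff]
    linarith
  linarith

theorem hasDeriv_logden {v : ℝ} (hv : 0 < v) :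
    HasDerivAt (fun v : ℝ => Real.log (1 - Real.exp (-(2 * v)))) (kk v) v := by
  have h0 := logden_pos hv
  have h1 : HasDerivAt (fun v : ℝ => 1 - Real.exp (-(2 * v))) (2 * Real.exp (-(2 * v))) v := by
    have h2 : HasDerivAt (fun v : ℝ => -(2 * v)) (-(2 * 1)) v :=
      ((hasDerivAt_id v).const_mul 2).neg
    have h3 := (h2.exp).const_sub 1
    have e : 2 * Real.exp (-(2 * v)) = -(Real.exp (-(2 * v)) * -(2 * 1)) := by ring
    rw [e]
    exact h3
  have h4 := h1.log h0.ne'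
  convert h4 using 1
  unfold kk
  have h5 := den_pos hv
  have h6 : Real.exp (2 * v) - 1 ≠ 0 := h5.ne'
  have h7 : Real.exp (2 * v) ≠ 0 := (Real.exp_pos _).ne'
  have h8 : 1 - Real.exp (-(2 * v)) ≠ 0 := h0.ne'
  rw [Real.exp_neg] at h8 ⊢
  field_simp

theorem tail {L : ℝ} (hL : 0 < L) : IntegrableOn kk (Ioi L) ∧
    ∫ v in Ioi L, kk v = -Real.log (1 - Real.exp (-(2 * L))) := by
  have hd : ∀ x ∈ Ici L, HasDerivAt (fun v : ℝ => Real.log (1 - Real.exp (-(2 * v)))) (kk x) x :=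
    fun x hx => hasDeriv_logden (lt_of_lt_of_le hL hx)
  have hp : ∀ x ∈ Ioi L, 0 ≤ kk x := fun x hx => (kk_pos (hL.trans hx)).le
  have ht : Tendsto (fun v : ℝ => Real.log (1 - Real.exp (-(2 * v)))) atTop (𝓝 0) := by
    have h1 : Tendsto (fun v : ℝ => Real.exp (-(2 * v))) atTop (𝓝 0) := by
      apply Real.tendsto_exp_neg_atTop_nhds_zero.comp
      exact tendsto_id.const_mul_atTop (by norm_num)
    have h2 : Tendsto (fun v : ℝ => 1 - Real.exp (-(2 * v))) atTop (𝓝 1) := by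
      simpa using h1.const_sub 1
    have h3 := (Real.continuousAt_log (x := 1) one_ne_zero).tendsto.comp h2
    rw [Real.log_one] at h3
    exact h3
  have hi := integrableOn_Ioi_deriv_of_nonneg' hd hp ht
  refine ⟨hi, ?_⟩
  rw [integral_Ioi_of_hasDerivAt_of_tendsto' hd hi ht]
  ring

theorem kk_meas : Measurable kk := by
  unfold kk
  fun_prop

theorem head {L : ℝ} (hL : 0 < L) :
    IntervalIntegrable (fun v => kk v - 1 / v) volume 0 L ∧
    ∫ v in (0 : ℝ)..L, (kk v - 1 / v) =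
      Real.log (1 - Real.exp (-(2 * L))) - Real.log L - Real.log 2 := by
  have hi : IntervalIntegrable (fun v => kk v - 1 / v) volume 0 L := by
    rw [intervalIntegrable_iff_integrableOn_Ioc_of_le hL.le]
    refine Measure.integrableOn_of_bounded (M := 2 * Real.exp (2 * L)) ?_ ?_ ?_
    · exact measure_Ioc_lt_top.ne
    · exact (kk_meas.sub (measurable_const.div measurable_id)).aestronglyMeasurable
    · refine (ae_restrict_iff' measurableSet_Ioc).2 (ae_of_all _ fun v hv => ?_)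
      rw [Real.norm_eq_abs]
      exact kk_sub hv.1 hv.2
  refine ⟨hi, ?_⟩
  have hd : ∀ x ∈ Ioo 0 L, HasDerivAt
      (fun v : ℝ => Real.log (1 - Real.exp (-(2 * v))) - Real.log v) (kk x - 1 / x) x := by
    intro x hx
    have := (hasDeriv_logden hx.1).sub (Real.hasDerivAt_log hx.1.ne')
    rwa [one_div]
  have ha : Tendsto (fun v : ℝ => Real.log (1 - Real.exp (-(2 * v))) - Real.log v) (𝓝[>] 0)
      (𝓝 (Real.log 2)) := by
    have h1 : HasDerivAt (fun v : ℝ => 1 - Real.exp (-(2 * v))) 2 0 := by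
      have h2 : HasDerivAt (fun v : ℝ => -(2 * v)) (-(2 * 1)) 0 :=
        ((hasDerivAt_id (0 : ℝ)).const_mul 2).neg
      have h3 := (h2.exp).const_sub 1
      have e : (2 : ℝ) = -(Real.exp (-(2 * 0)) * -(2 * 1)) := by simp
      rw [e]
      simpa using h3
    have h4 := h1.tendsto_slope_zero_right
    have h5 : Tendsto (fun v : ℝ => Real.log (v⁻¹ • (1 - Real.exp (-(2 * (0 + v))) -
        (1 - Real.exp (-(2 * 0)))))) (𝓝[>] 0) (𝓝 (Real.log 2)) :=
      (Real.continuousAt_log (x := 2) two_ne_zero).tendsto.comp h4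
    refine h5.congr' ?_
    filter_upwards [self_mem_nhdsWithin] with v hv
    have hv' : 0 < v := hv
    have h6 := logden_pos hv'
    simp only [zero_add, mul_zero, neg_zero, Real.exp_zero, sub_self, sub_zero, smul_eq_mul]
    rw [Real.log_mul (by positivity) h6.ne', Real.log_inv]
    ring
  have hb : Tendsto (fun v : ℝ => Real.log (1 - Real.exp (-(2 * v))) - Real.log v) (𝓝[<] L)
      (𝓝 (Real.log (1 - Real.exp (-(2 * L))) - Real.log L)) := by
    have := ((hasDeriv_logden hL).sub (Real.hasDerivAt_log hL.ne')).continuousAt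
    exact this.tendsto.mono_left nhdsWithin_le_nhds
  rw [intervalIntegral.integral_eq_sub_of_hasDerivAt_of_tendsto hL hd hi ha hb]

/-- the function `g(v) e^{-v/2}` -/
noncomputable def ph (g : ℝ → ℝ) (v : ℝ) : ℝ := g v * Real.exp (-(v / 2))

theorem ph_zero (g : ℝ → ℝ) : ph g 0 = g 0 := by simp [ph]

theorem ph_cd {g : ℝ → ℝ} (hg : ContDiff ℝ 1 g) : ContDiff ℝ 1 (ph g) := by
  unfold ph
  fun_prop

theorem ph_bound {g : ℝ → ℝ} {L : ℝ} (hL : 0 < L) (hg : ContDiff ℝ 1 g)
    (hg0 : ∀ v, L ≤ v → g v = 0) : ∃ C : ℝ, 0 ≤ C ∧ ∀ v, 0 < v → |g 0 - ph g v| ≤ C * v := by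
  have hc := ph_cd hg
  have hcd : Continuous (deriv (ph g)) := hc.continuous_deriv le_rfl
  obtain ⟨C₁, hC₁⟩ := (isCompact_Icc (a := (0 : ℝ)) (b := L)).exists_bound_of_continuousOn
    hcd.continuousOn
  have hC0 : 0 ≤ C₁ := (norm_nonneg _).trans (hC₁ 0 (left_mem_Icc.2 hL.le))
  refine ⟨C₁ + |g 0| / L, by positivity, fun v hv => ?_⟩
  rcases le_or_gt v L with h | h
  · have h1 := Convex.norm_image_sub_le_of_norm_deriv_le (f := ph g) (C := C₁) (s := Icc 0 L)
      (x := v) (y := 0) (fun x _ => (hc.differentiable one_ne_zero) x) hC₁ (convex_Icc 0 L)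
      ⟨hv.le, h⟩ ⟨le_rfl, hL.le⟩
    rw [ph_zero, Real.norm_eq_abs, zero_sub, norm_neg, Real.norm_eq_abs, abs_of_pos hv] at h1
    refine h1.trans ?_
    have : 0 ≤ |g 0| / L := by positivity
    nlinarith
  · have h1 : ph g v = 0 := by
      unfold ph
      rw [hg0 v h.le, zero_mul]
    rw [h1, sub_zero]
    have h2 : |g 0| ≤ |g 0| / L * v := by
      rw [div_mul_eq_mul_div, le_div_iff₀ hL]
      exact mul_le_mul_of_nonneg_left h.le (abs_nonneg _)
    have : 0 ≤ C₁ * v := by positivity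
    linarith

/-- the terms of the series under the integral -/
noncomputable def FF (g : ℝ → ℝ) (n : ℕ) (v : ℝ) : ℝ :=
  2 * Real.exp (-(2 * ((n : ℝ) + 1) * v)) * (g 0 - ph g v)

theorem FF_int {g : ℝ → ℝ} {C : ℝ} (_hC : 0 ≤ C) (hg : ContDiff ℝ 1 g)
    (hb : ∀ v, 0 < v → |g 0 - ph g v| ≤ C * v) (n : ℕ) :
    IntegrableOn (FF g n) (Ioi 0) ∧
      ∫ v in Ioi (0 : ℝ), ‖FF g n v‖ ≤ C / 2 * (1 / ((n : ℝ) + 1) ^ 2) := by
  have hn : (0 : ℝ) < 2 * ((n : ℝ) + 1) := by positivity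
  obtain ⟨h1, h2⟩ := int_v_exp hn
  have hcont : Continuous (FF g n) := by
    have := (ph_cd hg).continuous
    unfold FF
    fun_prop
  have hle : ∀ v ∈ Ioi (0 : ℝ), ‖FF g n v‖ ≤
      2 * C * (v * Real.exp (-(2 * ((n : ℝ) + 1) * v))) := by
    intro v hv
    have hv' : 0 < v := hv
    unfold FF
    rw [norm_mul, Real.norm_eq_abs, Real.norm_eq_abs, abs_of_pos (by positivity)]
    have := hb v hv'
    have h3 := mul_le_mul_of_nonneg_left this
      (show 0 ≤ 2 * Real.exp (-(2 * ((n : ℝ) + 1) * v)) by positivity)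
    linarith
  have h3 : IntegrableOn (fun v : ℝ => 2 * C * (v * Real.exp (-(2 * ((n : ℝ) + 1) * v)))) (Ioi 0) :=
    h1.const_mul _
  have h4 : IntegrableOn (FF g n) (Ioi 0) := by
    refine Integrable.mono' h3 hcont.aestronglyMeasurable ?_
    exact (ae_restrict_iff' measurableSet_Ioi).2 (ae_of_all _ hle)
  refine ⟨h4, ?_⟩
  have h5 := setIntegral_mono_on h4.norm h3 measurableSet_Ioi hle
  refine h5.trans (le_of_eq ?_)
  rw [integral_const_mul, h2]
  have : (n : ℝ) + 1 ≠ 0 := by positivity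
  field_simp
  try ring

theorem FF_val {g : ℝ → ℝ} {C : ℝ} (hC : 0 ≤ C) (hg : ContDiff ℝ 1 g)
    (hb : ∀ v, 0 < v → |g 0 - ph g v| ≤ C * v) (n : ℕ) :
    ∫ v in Ioi (0 : ℝ), FF g n v = g 0 / ((n : ℝ) + 1) - 2 * ∫ v in Ioi (0 : ℝ), g v *
      Real.exp (-(2 * ((n : ℝ) + 1) + 1 / 2) * v) := by
  have hn : (0 : ℝ) < 2 * ((n : ℝ) + 1) := by positivity
  obtain ⟨h1, h2⟩ := int_exp hn
  obtain ⟨h3, -⟩ := FF_int hC hg hb n
  have e : ∀ v : ℝ, 2 * (g v * Real.exp (-(2 * ((n : ℝ) + 1) + 1 / 2) * v)) =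
      (2 * g 0) * Real.exp (-(2 * ((n : ℝ) + 1) * v)) - FF g n v := by
    intro v
    unfold FF ph
    have : Real.exp (-(2 * ((n : ℝ) + 1) + 1 / 2) * v) =
        Real.exp (-(2 * ((n : ℝ) + 1) * v)) * Real.exp (-(v / 2)) := by
      rw [← Real.exp_add]
      congr 1
      ring
    rw [this]
    ring
  rw [← integral_const_mul]
  simp only [e]
  rw [integral_sub (h1.const_mul _) h3, integral_const_mul, h2]
  have : (n : ℝ) + 1 ≠ 0 := by positivity
  field_simp
  try ring

theorem FF_tsum {g : ℝ → ℝ} {v : ℝ} (hv : 0 < v) :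
    ∑' n : ℕ, FF g n v = kk v * (g 0 - ph g v) := by
  have := (hasSum_exp hv).mul_right (g 0 - ph g v)
  exact this.tsum_eq

theorem main_sum {g : ℝ → ℝ} {L : ℝ} (hL : 0 < L) (hg : ContDiff ℝ 1 g)
    (hg0 : ∀ v, L ≤ v → g v = 0) :
    ∑' n : ℕ, (g 0 / ((n : ℝ) + 1) - 2 * ∫ v in Ioi (0 : ℝ), g v *
      Real.exp (-(2 * ((n : ℝ) + 1) + 1 / 2) * v)) =
      ∫ v in Ioi (0 : ℝ), kk v * (g 0 - ph g v) := by
  obtain ⟨C, hC, hb⟩ := ph_bound hL hg hg0
  have h1 : Summable fun n : ℕ => ∫ v in Ioi (0 : ℝ), ‖FF g n v‖ := by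
    have h2 : Summable fun n : ℕ => C / 2 * (1 / ((n : ℝ) + 1) ^ 2) := by
      apply Summable.mul_left
      have := (summable_nat_add_iff 1).2 (Real.summable_one_div_nat_pow.2 (by norm_num : 1 < 2))
      simpa using this
    exact Summable.of_nonneg_of_le (fun n => integral_nonneg fun v => norm_nonneg _)
      (fun n => (FF_int hC hg hb n).2) h2
  have h3 := hasSum_integral_of_summable_integral_norm (fun n => (FF_int hC hg hb n).1) h1
  have h4 : ∀ n : ℕ, g 0 / ((n : ℝ) + 1) - 2 * ∫ v in Ioi (0 : ℝ), g v *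
      Real.exp (-(2 * ((n : ℝ) + 1) + 1 / 2) * v) = ∫ v in Ioi (0 : ℝ), FF g n v :=
    fun n => (FF_val hC hg hb n).symm
  simp only [h4]
  rw [h3.tsum_eq]
  exact setIntegral_congr_fun measurableSet_Ioi fun v hv => FF_tsum hv

theorem pt_id {g : ℝ → ℝ} {v : ℝ} (hv : 0 < v) :
    g 0 / v - Real.exp (v / 2) / Real.sinh v * g v =
      (kk v * (g 0 - ph g v) - 2 * ph g v) - g 0 * (kk v - 1 / v) := by
  have key : (kk v + 2) * Real.exp (-(v / 2)) = Real.exp (v / 2) / Real.sinh v := by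
    unfold kk
    have h1 : Real.exp (2 * v) = Real.exp (v / 2) ^ 4 := by
      rw [← Real.exp_nat_mul]; congr 1; push_cast; ring
    have h2 : Real.exp v = Real.exp (v / 2) ^ 2 := by
      rw [← Real.exp_nat_mul]; congr 1; push_cast; ring
    have h3 : 1 < Real.exp (v / 2) := Real.one_lt_exp_iff.2 (by positivity)
    rw [Real.sinh_eq, Real.exp_neg, Real.exp_neg, h2, h1]
    obtain ⟨E, hE⟩ : ∃ E, E = Real.exp (v / 2) := ⟨_, rfl⟩
    rw [← hE] at h3 ⊢
    have hE0 : E ≠ 0 := by positivity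
    have hE4 : E ^ 4 - 1 ≠ 0 := by
      have : (1 : ℝ) < E ^ 4 := one_lt_pow₀ h3 (by norm_num)
      linarith
    have hE2 : E ^ 2 - (E ^ 2)⁻¹ ≠ 0 := by
      have h4 : E ^ 2 - (E ^ 2)⁻¹ = (E ^ 4 - 1) / E ^ 2 := by field_simp
      rw [h4]
      exact div_ne_zero hE4 (by positivity)
    have h5 : (E ^ 2 - (E ^ 2)⁻¹) = (E ^ 4 - 1) / E ^ 2 := by field_simp
    rw [h5]
    field_simp
    ring
  rw [← key]
  unfold ph
  field_simp
  ring

theorem ar : S_AR := by
  intro g L hL hg hg0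
  obtain ⟨C, hC, hb⟩ := ph_bound hL hg hg0
  rw [main_sum hL hg hg0]
  obtain ⟨t1, t2⟩ := tail hL
  obtain ⟨k1, k2⟩ := head hL
  have hcont : Continuous (ph g) := (ph_cd hg).continuous
  have hz : ∀ v, L ≤ v → ph g v = 0 := fun v hv => by unfold ph; rw [hg0 v hv, zero_mul]
  -- the integrand on `(0, L]`
  have q1 : IntervalIntegrable (fun v => kk v * (g 0 - ph g v)) volume 0 L := by
    rw [intervalIntegrable_iff_integrableOn_Ioc_of_le hL.le]
    refine Measure.integrableOn_of_bounded (M := C) ?_ ?_ ?_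
    · exact measure_Ioc_lt_top.ne
    · exact (kk_meas.mul (measurable_const.sub hcont.measurable)).aestronglyMeasurable
    · refine (ae_restrict_iff' measurableSet_Ioc).2 (ae_of_all _ fun v hv => ?_)
      rw [norm_mul, Real.norm_eq_abs, Real.norm_eq_abs, abs_of_pos (kk_pos hv.1)]
      have h1 := hb v hv.1
      have h2 := kk_le hv.1
      have hv1 : 0 < v := hv.1
      calc kk v * |g 0 - ph g v| ≤ (1 / v) * (C * v) :=
            mul_le_mul h2 h1 (abs_nonneg _) (by positivity)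
        _ = C := by field_simp
  have q2 : IntegrableOn (fun v => kk v * (g 0 - ph g v)) (Ioi L) := by
    have t3 : IntegrableOn (fun v => kk v * g 0) (Ioi L) := t1.mul_const (g 0)
    refine t3.congr_fun (fun v hv => ?_) measurableSet_Ioi
    have hv' : L < v := hv
    simp only [hz v hv'.le, sub_zero]
  have q3 : ∫ v in Ioi (0 : ℝ), kk v * (g 0 - ph g v) =
      (∫ v in (0 : ℝ)..L, kk v * (g 0 - ph g v)) + (-Real.log (1 - Real.exp (-(2 * L)))) * g 0 := by
    have e1 := intervalIntegral.integral_interval_add_Ioi (a := 0) (b := L)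
      (f := fun v => kk v * (g 0 - ph g v)) (μ := volume) ?_ q2
    · rw [← e1]
      congr 1
      rw [← t2, ← integral_mul_const]
      refine setIntegral_congr_fun measurableSet_Ioi fun v hv => ?_
      have hv' : L < v := hv
      simp only [hz v hv'.le, sub_zero]
    · rw [← Ioc_union_Ioi_eq_Ioi hL.le]
      exact ((intervalIntegrable_iff_integrableOn_Ioc_of_le hL.le).1 q1).union q2
  have q4 : ∫ v in Ioi (0 : ℝ), g v * Real.exp (-(v / 2)) = ∫ v in (0 : ℝ)..L, ph g v := by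
    have e2 : IntegrableOn (ph g) (Ioi L) := by
      refine (integrableOn_zero : IntegrableOn (fun _ : ℝ => (0 : ℝ)) (Ioi L)).congr_fun
        (fun v hv => ?_) measurableSet_Ioi
      have hv' : L < v := hv
      exact (hz v hv'.le).symm
    have e3 : IntegrableOn (ph g) (Ioi 0) := by
      rw [← Ioc_union_Ioi_eq_Ioi hL.le]
      exact ((intervalIntegrable_iff_integrableOn_Ioc_of_le hL.le).1
        (hcont.intervalIntegrable 0 L)).union e2
    have e1 := intervalIntegral.integral_interval_add_Ioi (a := 0) (b := L)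
      (f := ph g) (μ := volume) e3 e2
    have e4 : ∫ v in Ioi L, ph g v = 0 := by
      rw [setIntegral_congr_fun measurableSet_Ioi (g := fun _ => (0 : ℝ)) fun v hv => hz v (le_of_lt hv)]
      simp
    rw [e4, add_zero] at e1
    rw [e1]
    rfl
  rw [q3, q4]
  have q5 : ∫ v in (0 : ℝ)..L, (g 0 / v - Real.exp (v / 2) / Real.sinh v * g v) =
      ∫ v in (0 : ℝ)..L, ((kk v * (g 0 - ph g v) - 2 * ph g v) - g 0 * (kk v - 1 / v)) := by
    refine intervalIntegral.integral_congr_ae (ae_of_all _ fun v hv => ?_)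
    rw [uIoc_of_le hL.le] at hv
    exact pt_id hv.1
  rw [q5, intervalIntegral.integral_sub (q1.sub ((hcont.intervalIntegrable 0 L).const_mul 2))
    (k1.const_mul _), intervalIntegral.integral_sub q1 ((hcont.intervalIntegrable 0 L).const_mul 2),
    intervalIntegral.integral_const_mul, intervalIntegral.integral_const_mul, k2,
    Real.log_mul two_ne_zero hL.ne']
  ring

end Pool.Agent.W100.WP
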